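import Pool.Agent.Lib_MP_3ea2ac_kn.Main

/-!
Q1 of MP_3ea2ac_ag for open subsets of a product of hyperbolic plane domains, in every dimension:
a complete Kähler metric of finite volume with `-a g ≤ Ric ≤ 0` exists on such a domain only if the
domain is the complement of an algebraic hypersurface.
-/

open MeasureTheory

namespace Pool.Agent.Results.MP_3ea2ac_ag.ProductDomains

theorem result {n : ℕ} {M : Set (Fin n → ℂ)} {g : (Fin n → ℂ) → Matrix (Fin n) (Fin n) ℂ}
    {a : ℝ} {α β : Fin n → ℂ} (hopen : IsOpen M) (hconn : IsConnected M)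
    (hne : ∀ i, α i ≠ β i) (homit : ∀ x ∈ M, ∀ i, x i ≠ α i ∧ x i ≠ β i)
    (hkahler : KN.IsKahler M g) (hcomplete : KN.IsComplete M g)
    (hricci : ∀ x ∈ M, ∀ v, - a * KN.hq (g x) v ≤ KN.hq (KN.ric g x) v ∧
      KN.hq (KN.ric g x) v ≤ 0)
    (hvolume : IntegrableOn (fun x => (g x).det.re) M) :
    ∃ Q : MvPolynomial (Fin n) ℂ, Q ≠ 0 ∧ M = {x | MvPolynomial.eval x Q ≠ 0} := by
  have H : KN.Hyp M g a α β :=
    ⟨hopen, hconn, hne, homit, hkahler, hcomplete, hricci, hvolume⟩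
  obtain ⟨Q, hQ, h⟩ := H.polynomial
  exact ⟨Q, hQ, Set.ext h⟩

end Pool.Agent.Results.MP_3ea2ac_ag.ProductDomains
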